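import Mathlib

open Equiv

set_option linter.unusedSectionVars false
set_option maxRecDepth 100000

namespace Pool.Agent.Results.MP_01b7fc_pr.OrderFails

variable {n : ℕ} [NeZero n]

/-- The word obtained from `w` by swapping the entry at the position `i` with its cyclic left
neighbour. A word is a permutation `w`, `w i` is the entry at position `i` (0-based). -/
def sw (w : Perm (Fin n)) (i : Fin n) : Perm (Fin n) := w * swap (i - 1) i

/-- Jump rate of the multispecies TASEP with inverse rates `t` from `w` to `w'`: the entry `w i`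
rings at rate `1 / t (w i)` and swaps with its cyclic left neighbour if that one is larger. -/
noncomputable def rate (t : Fin n → ℝ) (w w' : Perm (Fin n)) : ℝ :=
  ∑ i, if w i < w (i - 1) ∧ w' = sw w i then (t (w i))⁻¹ else 0

/-- `π` is a stationary distribution. -/
def IsStationary (t : Fin n → ℝ) (π : Perm (Fin n) → ℝ) : Prop :=
  (∀ w, 0 ≤ π w) ∧ ∑ w, π w = 1 ∧ ∀ w, ∑ w', π w' * rate t w' w = π w * ∑ w', rate t w w'

/-- The event `E`: each of the `k` small entries `j < k` is at the position `e j`. -/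
def InEvent (k : ℕ) (e : Fin n → Fin n) (w : Perm (Fin n)) : Prop :=
  ∀ j : Fin n, j.val < k → w (e j) = j

instance (k : ℕ) (e : Fin n → Fin n) (w : Perm (Fin n)) : Decidable (InEvent k e w) := by
  unfold InEvent; infer_instance

/-- The arrangement of the large entries, read in the order of their positions. -/
def arrangement (k : ℕ) (w : Perm (Fin n)) : List (Fin n) :=
  (List.ofFn w).filter fun x => decide (k ≤ x.val)

/-- The conditional probability `P(arrangement = σ | E)` under `π`. -/
noncomputable def condProb (π : Perm (Fin n) → ℝ) (k : ℕ) (e : Fin n → Fin n)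
    (σ : List (Fin n)) : ℝ :=
  (∑ w, if InEvent k e w ∧ arrangement k w = σ then π w else 0) /
    ∑ w, if InEvent k e w then π w else 0

/-- The large entries in increasing order. -/
def ascending (n k : ℕ) : List (Fin n) := (List.finRange n).filter fun x => decide (k ≤ x.val)

/-- The maximum of the conditional probability is attained at a cyclically ascending
arrangement. -/
def MaxAtAscending (π : Perm (Fin n) → ℝ) (k : ℕ) (e : Fin n → Fin n) : Prop :=
  ∃ σ : List (Fin n), σ ~r ascending n k ∧
    ∀ τ : List (Fin n), τ.Perm (ascending n k) → condProb π k e τ ≤ condProb π k e σ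

/-- The minimum of the conditional probability is attained at a cyclically descending
arrangement. -/
def MinAtDescending (π : Perm (Fin n) → ℝ) (k : ℕ) (e : Fin n → Fin n) : Prop :=
  ∃ σ : List (Fin n), σ ~r (ascending n k).reverse ∧
    ∀ τ : List (Fin n), τ.Perm (ascending n k) → condProb π k e σ ≤ condProb π k e τ

/-! ### Uniqueness of stationary distributions -/

section Unique

variable {S : Type*} [Fintype S]

theorem stat_pos {r : S → S → ℝ} (hr : ∀ x y, 0 ≤ r x y) {μ : S → ℝ} (hμ : ∀ x, 0 ≤ μ x)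
    (hst : ∀ y, ∑ x, μ x * r x y = μ y * ∑ z, r y z) {x y : S}
    (h : Relation.ReflTransGen (fun x y => 0 < r x y) x y) (hx : 0 < μ x) : 0 < μ y := by
  induction h with
  | refl => exact hx
  | @tail b c _ hbc ih =>
    have h1 : μ b * r b c ≤ ∑ x, μ x * r x c :=
      Finset.single_le_sum (f := fun x => μ x * r x c) (fun x _ => mul_nonneg (hμ x) (hr x c))
        (Finset.mem_univ b)
    have h2 : 0 < μ b * r b c := mul_pos ih hbc
    rw [hst c] at h1
    rcases (hμ c).lt_or_eq with h3 | h3
    · exact h3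
    · rw [← h3, zero_mul] at h1
      linarith

theorem unique_stat {r : S → S → ℝ} (hr : ∀ x y, 0 ≤ r x y) (y0 : S)
    (hreach : ∀ x, Relation.ReflTransGen (fun x y => 0 < r x y) x y0) {μ ν : S → ℝ}
    (hs : ∑ x, μ x = ∑ x, ν x)
    (hμ : ∀ y, ∑ x, μ x * r x y = μ y * ∑ z, r y z)
    (hν : ∀ y, ∑ x, ν x * r x y = ν y * ∑ z, r y z) : μ = ν := by
  set v : S → ℝ := fun x => μ x - ν x with hv
  have hvst : ∀ y, ∑ x, v x * r x y = v y * ∑ z, r y z := by
    intro y
    simp only [hv, sub_mul, Finset.sum_sub_distrib, hμ y, hν y]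
  have hle : ∀ y, |v y| * ∑ z, r y z ≤ ∑ x, |v x| * r x y := by
    intro y
    have h0 : 0 ≤ ∑ z, r y z := Finset.sum_nonneg fun z _ => hr y z
    calc |v y| * ∑ z, r y z = |v y * ∑ z, r y z| := by rw [abs_mul, abs_of_nonneg h0]
      _ = |∑ x, v x * r x y| := by rw [hvst y]
      _ ≤ ∑ x, |v x * r x y| := Finset.abs_sum_le_sum_abs _ _
      _ = ∑ x, |v x| * r x y := by
          apply Finset.sum_congr rfl
          intro x _
          rw [abs_mul, abs_of_nonneg (hr x y)]
  have hsum : ∑ y, |v y| * ∑ z, r y z = ∑ y, ∑ x, |v x| * r x y := by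
    rw [Finset.sum_comm]
    simp only [Finset.mul_sum]
  have habs : ∀ y, ∑ x, |v x| * r x y = |v y| * ∑ z, r y z := by
    intro y
    exact ((Finset.sum_eq_sum_iff_of_le fun y _ => hle y).mp hsum y (Finset.mem_univ y)).symm
  have hplus : ∀ y, ∑ x, (|v x| + v x) * r x y = (|v y| + v y) * ∑ z, r y z := by
    intro y
    simp only [add_mul, Finset.sum_add_distrib, habs y, hvst y]
  have hminus : ∀ y, ∑ x, (|v x| - v x) * r x y = (|v y| - v y) * ∑ z, r y z := by
    intro y
    simp only [sub_mul, Finset.sum_sub_distrib, habs y, hvst y]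
  have hv0 : ∑ x, v x = 0 := by simp [hv, Finset.sum_sub_distrib, hs]
  by_cases hp : ∃ x, 0 < v x
  · by_cases hm : ∃ x, v x < 0
    · exfalso
      obtain ⟨x, hx⟩ := hp
      obtain ⟨x', hx'⟩ := hm
      have h1 := stat_pos hr (fun x => by linarith [neg_abs_le (v x)]) hplus (hreach x)
        (by linarith [abs_nonneg (v x)])
      have h2 := stat_pos hr (fun x => by linarith [le_abs_self (v x)]) hminus (hreach x')
        (by linarith [abs_nonneg (v x')])
      rcases le_total 0 (v y0) with h | h
      · rw [abs_of_nonneg h] at h2; linarith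
      · rw [abs_of_nonpos h] at h1; linarith
    · push Not at hm
      have := (Finset.sum_eq_zero_iff_of_nonneg fun x _ => hm x).mp hv0
      funext x
      have hx := this x (Finset.mem_univ x)
      simp only [hv] at hx
      linarith
  · push Not at hp
    have := (Finset.sum_eq_zero_iff_of_nonpos fun x _ => hp x).mp hv0
    funext x
    have hx := this x (Finset.mem_univ x)
    simp only [hv] at hx
    linarith

end Unique

/-! ### The chain for `n = 6` -/

theorem sw_sw (w : Perm (Fin 6)) (i : Fin 6) : sw (sw w i) i = w := by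
  simp [sw, mul_assoc]

theorem sw_left (w : Perm (Fin 6)) (i : Fin 6) : sw w i i = w (i - 1) := by
  simp [sw]

theorem sw_right (w : Perm (Fin 6)) (i : Fin 6) : sw w i (i - 1) = w i := by
  simp [sw]

theorem rate_out (t : Fin 6 → ℝ) (w : Perm (Fin 6)) :
    ∑ w', rate t w w' = ∑ i, if w i < w (i - 1) then (t (w i))⁻¹ else 0 := by
  unfold rate
  rw [Finset.sum_comm]
  apply Finset.sum_congr rfl
  intro i _
  by_cases h : w i < w (i - 1)
  · simp [h]
  · simp [h]

theorem rate_in (t : Fin 6 → ℝ) (π : Perm (Fin 6) → ℝ) (w : Perm (Fin 6)) :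
    ∑ w', π w' * rate t w' w =
      ∑ i, if w (i - 1) < w i then π (sw w i) * (t (w (i - 1)))⁻¹ else 0 := by
  unfold rate
  simp only [Finset.mul_sum]
  rw [Finset.sum_comm]
  apply Finset.sum_congr rfl
  intro i _
  rw [Finset.sum_eq_single (sw w i)]
  · rw [sw_left, sw_right]
    by_cases h : w (i - 1) < w i
    · simp [h, sw_sw]
    · simp [h]
  · intro b _ hb
    rw [if_neg, mul_zero]
    rintro ⟨_, h⟩
    apply hb
    rw [h, sw_sw]
  · simp

theorem rate_nonneg {t : Fin 6 → ℝ} (ht : ∀ i, 0 < t i) (w w' : Perm (Fin 6)) :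
    0 ≤ rate t w w' := by
  unfold rate
  apply Finset.sum_nonneg
  intro i _
  split_ifs
  · exact (inv_pos.mpr (ht _)).le
  · exact le_rfl

theorem rate_pos {t : Fin 6 → ℝ} (ht : ∀ i, 0 < t i) (w : Perm (Fin 6)) (i : Fin 6)
    (h : w i < w (i - 1)) : 0 < rate t w (sw w i) := by
  unfold rate
  apply Finset.sum_pos'
  · intro j _
    split_ifs
    · exact (inv_pos.mpr (ht _)).le
    · exact le_rfl
  · exact ⟨i, Finset.mem_univ i, by rw [if_pos ⟨h, rfl⟩]; exact inv_pos.mpr (ht _)⟩

/-- The potential used for sorting. -/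
def pot (w : Perm (Fin 6)) : ℕ := ∑ j : Fin 6, j.val * (w j).val

theorem pot_le (w : Perm (Fin 6)) : pot w ≤ 150 := by
  unfold pot
  calc ∑ j : Fin 6, j.val * (w j).val ≤ ∑ _j : Fin 6, 5 * 5 := by
        apply Finset.sum_le_sum
        intro j _
        exact Nat.mul_le_mul (by omega) (by omega)
    _ = 150 := by simp

theorem pot_sw (w : Perm (Fin 6)) (i : Fin 6) (hi : i ≠ 0) (h : w i < w (i - 1)) :
    pot w < pot (sw w i) := by
  have hlt : (w i).val < (w (i - 1)).val := h
  unfold pot sw
  simp only [Fin.sum_univ_six, Perm.mul_apply]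
  fin_cases i
  · exact absurd rfl hi
  · have e : ∀ j : Fin 6, swap ((1 : Fin 6) - 1) 1 j = ![1, 0, 2, 3, 4, 5] j := by decide
    simp only [show ((⟨1, by norm_num⟩ : Fin 6)) = 1 from rfl, e] at *
    simp at *
    omega
  · have e : ∀ j : Fin 6, swap ((2 : Fin 6) - 1) 2 j = ![0, 2, 1, 3, 4, 5] j := by decide
    simp only [show ((⟨2, by norm_num⟩ : Fin 6)) = 2 from rfl, e] at *
    simp at *
    omega
  · have e : ∀ j : Fin 6, swap ((3 : Fin 6) - 1) 3 j = ![0, 1, 3, 2, 4, 5] j := by decide
    simp only [show ((⟨3, by norm_num⟩ : Fin 6)) = 3 from rfl, e] at *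
    simp at *
    omega
  · have e : ∀ j : Fin 6, swap ((4 : Fin 6) - 1) 4 j = ![0, 1, 2, 4, 3, 5] j := by decide
    simp only [show ((⟨4, by norm_num⟩ : Fin 6)) = 4 from rfl, e] at *
    simp at *
    omega
  · have e : ∀ j : Fin 6, swap ((5 : Fin 6) - 1) 5 j = ![0, 1, 2, 3, 5, 4] j := by decide
    simp only [show ((⟨5, by norm_num⟩ : Fin 6)) = 5 from rfl, e] at *
    simp at *
    omega

theorem eq_one_of_sorted (w : Perm (Fin 6)) (h : ∀ i : Fin 6, i ≠ 0 → ¬ w i < w (i - 1)) :
    w = 1 := by
  have h1 := h 1 (by decide)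
  have h2 := h 2 (by decide)
  have h3 := h 3 (by decide)
  have h4 := h 4 (by decide)
  have h5 := h 5 (by decide)
  have e1 : (1 : Fin 6) - 1 = 0 := by decide
  have e2 : (2 : Fin 6) - 1 = 1 := by decide
  have e3 : (3 : Fin 6) - 1 = 2 := by decide
  have e4 : (4 : Fin 6) - 1 = 3 := by decide
  have e5 : (5 : Fin 6) - 1 = 4 := by decide
  rw [e1] at h1
  rw [e2] at h2
  rw [e3] at h3
  rw [e4] at h4
  rw [e5] at h5
  have i1 : w 1 ≠ w 0 := fun h => absurd (w.injective h) (by decide)
  have i2 : w 2 ≠ w 1 := fun h => absurd (w.injective h) (by decide)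
  have i3 : w 3 ≠ w 2 := fun h => absurd (w.injective h) (by decide)
  have i4 : w 4 ≠ w 3 := fun h => absurd (w.injective h) (by decide)
  have i5 : w 5 ≠ w 4 := fun h => absurd (w.injective h) (by decide)
  apply Equiv.ext
  intro j
  fin_cases j <;> simp <;> omega

theorem reach_one {t : Fin 6 → ℝ} (ht : ∀ i, 0 < t i) (w : Perm (Fin 6)) :
    Relation.ReflTransGen (fun x y => 0 < rate t x y) w 1 := by
  induction hm : 150 - pot w using Nat.strong_induction_on generalizing w with
  | _ m ih =>
    by_cases h : ∃ i : Fin 6, i ≠ 0 ∧ w i < w (i - 1)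
    · obtain ⟨i, hi, hlt⟩ := h
      have hp := pot_sw w i hi hlt
      have hle := pot_le (sw w i)
      exact Relation.ReflTransGen.head (rate_pos ht w i hlt)
        (ih (150 - pot (sw w i)) (by omega) (sw w i) rfl)
    · push Not at h
      have : w = 1 := eq_one_of_sorted w fun i hi => not_lt.mpr (h i hi)
      rw [this]

theorem unique_stationary {t : Fin 6 → ℝ} (ht : ∀ i, 0 < t i) {π π' : Perm (Fin 6) → ℝ}
    (h : IsStationary t π) (h' : IsStationary t π') : π' = π :=
  unique_stat (rate_nonneg ht) 1 (reach_one ht) (h'.2.1.trans h.2.1.symm) h'.2.2 h.2.2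

/-! ### Weights given by a table -/

/-- Table look-up. -/
def look : List (ℕ × ℕ) → ℕ → ℕ
  | [], _ => 0
  | (a, b) :: l, c => if a = c then b else look l c

/-- The weight of the word `0 a b c d e`. -/
def F (tab : List (ℕ × ℕ)) (a b c d e : Fin 6) : ℕ :=
  look tab ((((a.val * 6 + b.val) * 6 + c.val) * 6 + d.val) * 6 + e.val)

/-- Global balance at the word `0 a b c d e`. -/
def Bal (tab : List (ℕ × ℕ)) (R : Fin 6 → ℕ) (a b c d e : Fin 6) : Prop :=
  R 0 * F tab b c d e a + (if a < b then R a * F tab b a c d e else 0) +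
    (if b < c then R b * F tab a c b d e else 0) + (if c < d then R c * F tab a b d c e else 0) +
    (if d < e then R d * F tab a b c e d else 0) =
  F tab a b c d e * (R 0 + (if b < a then R b else 0) + (if c < b then R c else 0) +
    (if d < c then R d else 0) + (if e < d then R e else 0))

instance (tab : List (ℕ × ℕ)) (R : Fin 6 → ℕ) (a b c d e : Fin 6) :
    Decidable (Bal tab R a b c d e) := by
  unfold Bal; infer_instance

/-- Global balance at all words. -/
def AllBal (tab : List (ℕ × ℕ)) (R : Fin 6 → ℕ) : Prop :=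
  ∀ a : Fin 6, a ≠ 0 → ∀ b : Fin 6, (b ≠ 0 ∧ b ≠ a) → ∀ c : Fin 6, (c ≠ 0 ∧ c ≠ a ∧ c ≠ b) →
    ∀ d : Fin 6, (d ≠ 0 ∧ d ≠ a ∧ d ≠ b ∧ d ≠ c) →
    ∀ e : Fin 6, (e ≠ 0 ∧ e ≠ a ∧ e ≠ b ∧ e ≠ c ∧ e ≠ d) → Bal tab R a b c d e

instance (tab : List (ℕ × ℕ)) (R : Fin 6 → ℕ) : Decidable (AllBal tab R) := by
  unfold AllBal; infer_instance

/-- The word read from the position of the entry `0`. -/
def canon (w : Perm (Fin 6)) (j : Fin 6) : Fin 6 := w (w.symm 0 + j)

/-- The weight of a word. -/
def G (tab : List (ℕ × ℕ)) (w : Perm (Fin 6)) : ℕ :=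
  F tab (canon w 1) (canon w 2) (canon w 3) (canon w 4) (canon w 5)

theorem canon_sw (w : Perm (Fin 6)) (i : Fin 6) (m : Fin 6) :
    canon (sw w i) m = w (swap (i - 1) i (swap (i - 1) i (w.symm 0) + m)) := by
  unfold canon
  have : (sw w i).symm 0 = swap (i - 1) i (w.symm 0) := by
    rw [Equiv.symm_apply_eq]
    simp [sw]
  rw [this]
  simp [sw]

theorem canon_sw1 (w : Perm (Fin 6)) (m : Fin 6) :
    canon (sw w (w.symm 0 + 1)) m = canon w (![0, 2, 3, 4, 5, 1] m) := by
  rw [canon_sw]
  have : ∀ p m : Fin 6, swap (p + 1 - 1) (p + 1) (swap (p + 1 - 1) (p + 1) p + m) =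
    p + ![0, 2, 3, 4, 5, 1] m := by decide
  rw [this]
  rfl

theorem canon_sw2 (w : Perm (Fin 6)) (m : Fin 6) :
    canon (sw w (w.symm 0 + 2)) m = canon w (![0, 2, 1, 3, 4, 5] m) := by
  rw [canon_sw]
  have : ∀ p m : Fin 6, swap (p + 2 - 1) (p + 2) (swap (p + 2 - 1) (p + 2) p + m) =
    p + ![0, 2, 1, 3, 4, 5] m := by decide
  rw [this]
  rfl

theorem canon_sw3 (w : Perm (Fin 6)) (m : Fin 6) :
    canon (sw w (w.symm 0 + 3)) m = canon w (![0, 1, 3, 2, 4, 5] m) := by
  rw [canon_sw]
  have : ∀ p m : Fin 6, swap (p + 3 - 1) (p + 3) (swap (p + 3 - 1) (p + 3) p + m) =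
    p + ![0, 1, 3, 2, 4, 5] m := by decide
  rw [this]
  rfl

theorem canon_sw4 (w : Perm (Fin 6)) (m : Fin 6) :
    canon (sw w (w.symm 0 + 4)) m = canon w (![0, 1, 2, 4, 3, 5] m) := by
  rw [canon_sw]
  have : ∀ p m : Fin 6, swap (p + 4 - 1) (p + 4) (swap (p + 4 - 1) (p + 4) p + m) =
    p + ![0, 1, 2, 4, 3, 5] m := by decide
  rw [this]
  rfl

theorem canon_sw5 (w : Perm (Fin 6)) (m : Fin 6) :
    canon (sw w (w.symm 0 + 5)) m = canon w (![0, 1, 2, 3, 5, 4] m) := by
  rw [canon_sw]
  have : ∀ p m : Fin 6, swap (p + 5 - 1) (p + 5) (swap (p + 5 - 1) (p + 5) p + m) =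
    p + ![0, 1, 2, 3, 5, 4] m := by decide
  rw [this]
  rfl

theorem canon_zero (w : Perm (Fin 6)) : canon w 0 = 0 := by simp [canon]

theorem canon_inj (w : Perm (Fin 6)) {i j : Fin 6} (h : canon w i = canon w j) : i = j :=
  add_left_cancel (w.injective h)

theorem sum_shift (p : Fin 6) (f : Fin 6 → ℕ) :
    ∑ i, f i = f (p + 0) + f (p + 1) + f (p + 2) + f (p + 3) + f (p + 4) + f (p + 5) := by
  rw [← Equiv.sum_comp (Equiv.addLeft p) f, Fin.sum_univ_six]
  rfl

theorem balance {tab : List (ℕ × ℕ)} {R : Fin 6 → ℕ} (h : AllBal tab R) (w : Perm (Fin 6)) :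
    (∑ i, if w (i - 1) < w i then G tab (sw w i) * R (w (i - 1)) else 0) =
      G tab w * ∑ i, if w i < w (i - 1) then R (w i) else 0 := by
  set p := w.symm 0 with hp
  rw [sum_shift p, sum_shift p]
  have e0 : p + 0 - 1 = p + 5 := by rw [add_zero, sub_eq_add_neg]; congr 1
  have e1 : p + 1 - 1 = p + 0 := by rw [add_sub_assoc]; congr 1
  have e2 : p + 2 - 1 = p + 1 := by rw [add_sub_assoc]; congr 1
  have e3 : p + 3 - 1 = p + 2 := by rw [add_sub_assoc]; congr 1
  have e4 : p + 4 - 1 = p + 3 := by rw [add_sub_assoc]; congr 1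
  have e5 : p + 5 - 1 = p + 4 := by rw [add_sub_assoc]; congr 1
  simp only [e0, e1, e2, e3, e4, e5]
  have c0 : w (p + 0) = 0 := canon_zero w
  have g1 : G tab (sw w (p + 1)) = F tab (canon w 2) (canon w 3) (canon w 4) (canon w 5)
      (canon w 1) := by
    unfold G; simp only [hp, canon_sw1]; rfl
  have g2 : G tab (sw w (p + 2)) = F tab (canon w 2) (canon w 1) (canon w 3) (canon w 4)
      (canon w 5) := by
    unfold G; simp only [hp, canon_sw2]; rfl
  have g3 : G tab (sw w (p + 3)) = F tab (canon w 1) (canon w 3) (canon w 2) (canon w 4)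
      (canon w 5) := by
    unfold G; simp only [hp, canon_sw3]; rfl
  have g4 : G tab (sw w (p + 4)) = F tab (canon w 1) (canon w 2) (canon w 4) (canon w 3)
      (canon w 5) := by
    unfold G; simp only [hp, canon_sw4]; rfl
  have g5 : G tab (sw w (p + 5)) = F tab (canon w 1) (canon w 2) (canon w 3) (canon w 5)
      (canon w 4) := by
    unfold G; simp only [hp, canon_sw5]; rfl
  simp only [g1, g2, g3, g4, g5, c0]
  have ne : ∀ j : Fin 6, j ≠ 0 → canon w j ≠ 0 := by
    intro j hj h0
    exact hj (canon_inj w (h0.trans (canon_zero w).symm))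
  have ne' : ∀ i j : Fin 6, i ≠ j → canon w i ≠ canon w j := fun i j hij h => hij (canon_inj w h)
  have key := h (canon w 1) (ne 1 (by decide)) (canon w 2) ⟨ne 2 (by decide), ne' _ _ (by decide)⟩
    (canon w 3) ⟨ne 3 (by decide), ne' _ _ (by decide), ne' _ _ (by decide)⟩
    (canon w 4) ⟨ne 4 (by decide), ne' _ _ (by decide), ne' _ _ (by decide), ne' _ _ (by decide)⟩
    (canon w 5) ⟨ne 5 (by decide), ne' _ _ (by decide), ne' _ _ (by decide), ne' _ _ (by decide),
      ne' _ _ (by decide)⟩
  unfold Bal at key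
  have p1 : w (p + 1) = canon w 1 := rfl
  have p2 : w (p + 2) = canon w 2 := rfl
  have p3 : w (p + 3) = canon w 3 := rfl
  have p4 : w (p + 4) = canon w 4 := rfl
  have p5 : w (p + 5) = canon w 5 := rfl
  simp only [p1, p2, p3, p4, p5]
  have hG : G tab w = F tab (canon w 1) (canon w 2) (canon w 3) (canon w 4) (canon w 5) := rfl
  rw [hG]
  have z1 : ¬ (canon w 5 < 0) := by simp
  have z2 : (0 : Fin 6) < canon w 1 := Fin.pos_iff_ne_zero.mpr (ne 1 (by decide))
  have z3 : ¬ (canon w 1 < 0) := by simp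
  have z4 : (0 : Fin 6) < canon w 5 := Fin.pos_iff_ne_zero.mpr (ne 5 (by decide))
  rw [if_neg z1, if_pos z2, if_pos z4, if_neg z3]
  rw [zero_add, add_zero]
  calc _ = R 0 * F tab (canon w 2) (canon w 3) (canon w 4) (canon w 5) (canon w 1) +
        (if canon w 1 < canon w 2 then
          R (canon w 1) * F tab (canon w 2) (canon w 1) (canon w 3) (canon w 4) (canon w 5)
          else 0) +
        (if canon w 2 < canon w 3 then
          R (canon w 2) * F tab (canon w 1) (canon w 3) (canon w 2) (canon w 4) (canon w 5)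
          else 0) +
        (if canon w 3 < canon w 4 then
          R (canon w 3) * F tab (canon w 1) (canon w 2) (canon w 4) (canon w 3) (canon w 5)
          else 0) +
        (if canon w 4 < canon w 5 then
          R (canon w 4) * F tab (canon w 1) (canon w 2) (canon w 3) (canon w 5) (canon w 4)
          else 0) := by
        simp only [mul_comm]
    _ = _ := key

/-- The stationary distribution given by a table. -/
theorem stationary_of_table {tab : List (ℕ × ℕ)} {R : Fin 6 → ℕ} (h : AllBal tab R)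
    (hR : ∀ i, 0 < R i) (hpos : 0 < G tab 1) (t : Fin 6 → ℝ) (ht : ∀ i, t i = ((R i : ℕ) : ℝ)⁻¹) :
    ∃ W : ℝ, 0 < W ∧ (∀ i, 0 < t i) ∧ IsStationary t (fun w => (G tab w : ℝ) / W) := by
  have hnn : ∀ w ∈ (Finset.univ : Finset (Perm (Fin 6))), (0 : ℝ) ≤ (G tab w : ℝ) :=
    fun w _ => Nat.cast_nonneg _
  have h1 : (0 : ℝ) < (G tab 1 : ℝ) := Nat.cast_pos.mpr hpos
  have hW : 0 < ∑ w, (G tab w : ℝ) := Finset.sum_pos' hnn ⟨1, Finset.mem_univ _, h1⟩
  refine ⟨∑ w, (G tab w : ℝ), hW, fun i => ?_, ?_, ?_, ?_⟩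
  · rw [ht]
    exact inv_pos.mpr (Nat.cast_pos.mpr (hR i))
  · intro w
    exact div_nonneg (Nat.cast_nonneg _) hW.le
  · rw [← Finset.sum_div, div_self hW.ne']
  · intro w
    rw [rate_in, rate_out]
    have hb := balance h w
    have hb' : (∑ i, if w (i - 1) < w i then (G tab (sw w i) : ℝ) * (R (w (i - 1)) : ℝ) else 0) =
      (G tab w : ℝ) * ∑ i, if w i < w (i - 1) then (R (w i) : ℝ) else 0 := by
      exact_mod_cast hb
    simp only [ht, inv_inv]
    rw [div_mul_eq_mul_div, ← hb', Finset.sum_div]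
    apply Finset.sum_congr rfl
    intro i _
    split_ifs
    · ring
    · simp

/-! ### Conditional probabilities -/

theorem ascending_six : ascending 6 2 = [2, 3, 4, 5] := by decide

theorem rot_cases {l : List (Fin 6)} {a b c d : Fin 6} (h : l ~r [a, b, c, d]) :
    l = [a, b, c, d] ∨ l = [b, c, d, a] ∨ l = [c, d, a, b] ∨ l = [d, a, b, c] := by
  obtain ⟨k, hk, h⟩ := List.isRotated_iff_mod.mp h.symm
  simp at hk
  interval_cases k
  · left; rw [← h]; rfl
  · right; left; rw [← h]; rfl
  · right; right; left; rw [← h]; rfl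
  · right; right; right; rw [← h]; rfl
  · left; rw [← h]; exact List.rotate_length [a, b, c, d]

/-- A word from its list of entries. -/
noncomputable def word (f : Fin 6 → Fin 6) (h : Function.Injective f) : Perm (Fin 6) :=
  Equiv.ofBijective f ((Finite.injective_iff_bijective).mp h)

theorem word_apply (f : Fin 6 → Fin 6) (h : Function.Injective f) (i : Fin 6) :
    word f h i = f i := rfl

theorem G_word (tab : List (ℕ × ℕ)) (f : Fin 6 → Fin 6) (h : Function.Injective f)
    (h0 : f 0 = 0) : G tab (word f h) = F tab (f 1) (f 2) (f 3) (f 4) (f 5) := by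
  have : (word f h).symm 0 = 0 := by
    rw [Equiv.symm_apply_eq]
    exact h0.symm
  unfold G canon
  rw [this]
  simp only [zero_add, word_apply]

/-- The event with entry `0` at position `0` and entry `1` at position `q`. -/
def pos (q : Fin 6) : Fin 6 → Fin 6 := swap 1 q

theorem large {w : Perm (Fin 6)} {i j k : Fin 6} (h0 : w i = 0) (h1 : w j = 1) (hi : k ≠ i)
    (hj : k ≠ j) : decide (2 ≤ (w k).val) = true := by
  have a : w k ≠ 0 := fun h => hi (w.injective (h.trans h0.symm))
  have b : w k ≠ 1 := fun h => hj (w.injective (h.trans h1.symm))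
  rw [decide_eq_true_eq]
  omega

theorem ofFn_six (w : Perm (Fin 6)) : List.ofFn w = [w 0, w 1, w 2, w 3, w 4, w 5] := by
  simp [List.ofFn_succ]

theorem arr4 {w : Perm (Fin 6)} (h0 : w 0 = 0) (h1 : w 4 = 1) :
    arrangement 2 w = [w 1, w 2, w 3, w 5] := by
  unfold arrangement
  have l1 := large (k := 1) h0 h1 (by decide) (by decide)
  have l2 := large (k := 2) h0 h1 (by decide) (by decide)
  have l3 := large (k := 3) h0 h1 (by decide) (by decide)
  have l5 := large (k := 5) h0 h1 (by decide) (by decide)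
  have l0 : decide (2 ≤ (w 0).val) = false := by rw [h0]; rfl
  have l4 : decide (2 ≤ (w 4).val) = false := by rw [h1]; rfl
  rw [ofFn_six]
  simp only [List.filter_cons, List.filter_nil, l0, l1, l2, l3, l4, l5]
  rfl

theorem arr3 {w : Perm (Fin 6)} (h0 : w 0 = 0) (h1 : w 3 = 1) :
    arrangement 2 w = [w 1, w 2, w 4, w 5] := by
  unfold arrangement
  have l1 := large (k := 1) h0 h1 (by decide) (by decide)
  have l2 := large (k := 2) h0 h1 (by decide) (by decide)
  have l4 := large (k := 4) h0 h1 (by decide) (by decide)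
  have l5 := large (k := 5) h0 h1 (by decide) (by decide)
  have l0 : decide (2 ≤ (w 0).val) = false := by rw [h0]; rfl
  have l3 : decide (2 ≤ (w 3).val) = false := by rw [h1]; rfl
  rw [ofFn_six]
  simp only [List.filter_cons, List.filter_nil, l0, l1, l2, l3, l4, l5]
  rfl

theorem inEvent_iff (q : Fin 6) (hq : q ≠ 0) (w : Perm (Fin 6)) :
    InEvent 2 (pos q) w ↔ w 0 = 0 ∧ w q = 1 := by
  have e0 : pos q 0 = 0 := by
    unfold pos
    exact swap_apply_of_ne_of_ne (by decide) (Ne.symm hq)
  have e1 : pos q 1 = q := by simp [pos]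
  constructor
  · intro h
    have h0 := h 0 (by decide)
    have h1 := h 1 (by decide)
    rw [e0] at h0
    rw [e1] at h1
    exact ⟨h0, h1⟩
  · rintro ⟨h0, h1⟩ j hj
    have : j = 0 ∨ j = 1 := by omega
    rcases this with rfl | rfl
    · rw [e0, h0]
    · rw [e1, h1]

theorem sum4 (π : Perm (Fin 6) → ℝ) (a b c d : Fin 6)
    (hinj : Function.Injective ![0, a, b, c, 1, d]) :
    (∑ w, if InEvent 2 (pos 4) w ∧ arrangement 2 w = [a, b, c, d] then π w else 0) =
      π (word ![0, a, b, c, 1, d] hinj) := by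
  rw [Finset.sum_eq_single (word ![0, a, b, c, 1, d] hinj)]
  · rw [if_pos]
    have h0 : (word ![0, a, b, c, 1, d] hinj) 0 = 0 := rfl
    have h1 : (word ![0, a, b, c, 1, d] hinj) 4 = 1 := rfl
    exact ⟨(inEvent_iff 4 (by decide) _).mpr ⟨h0, h1⟩, by rw [arr4 h0 h1]; rfl⟩
  · intro w _ hne
    rw [if_neg]
    rintro ⟨h1, h2⟩
    apply hne
    obtain ⟨h0, h4⟩ := (inEvent_iff 4 (by decide) w).mp h1
    rw [arr4 h0 h4] at h2
    simp only [List.cons.injEq, and_true] at h2
    obtain ⟨ha, hb, hc, hd⟩ := h2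
    apply Equiv.ext
    intro j
    rw [word_apply]
    fin_cases j
    · exact h0
    · exact ha
    · exact hb
    · exact hc
    · exact h4
    · exact hd
  · simp

theorem sum3 (π : Perm (Fin 6) → ℝ) (a b c d : Fin 6)
    (hinj : Function.Injective ![0, a, b, 1, c, d]) :
    (∑ w, if InEvent 2 (pos 3) w ∧ arrangement 2 w = [a, b, c, d] then π w else 0) =
      π (word ![0, a, b, 1, c, d] hinj) := by
  rw [Finset.sum_eq_single (word ![0, a, b, 1, c, d] hinj)]
  · rw [if_pos]
    have h0 : (word ![0, a, b, 1, c, d] hinj) 0 = 0 := rfl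
    have h1 : (word ![0, a, b, 1, c, d] hinj) 3 = 1 := rfl
    exact ⟨(inEvent_iff 3 (by decide) _).mpr ⟨h0, h1⟩, by rw [arr3 h0 h1]; rfl⟩
  · intro w _ hne
    rw [if_neg]
    rintro ⟨h1, h2⟩
    apply hne
    obtain ⟨h0, h4⟩ := (inEvent_iff 3 (by decide) w).mp h1
    rw [arr3 h0 h4] at h2
    simp only [List.cons.injEq, and_true] at h2
    obtain ⟨ha, hb, hc, hd⟩ := h2
    apply Equiv.ext
    intro j
    rw [word_apply]
    fin_cases j
    · exact h0
    · exact ha
    · exact hb
    · exact h4
    · exact hc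
    · exact hd
  · simp

/-- Comparison of conditional probabilities, second small entry at position `4`. -/
theorem cond4 (tab : List (ℕ × ℕ)) {W : ℝ} (hW : 0 < W) {a b c d a' b' c' d' : Fin 6}
    (hinj : Function.Injective ![0, a, b, c, 1, d])
    (hinj' : Function.Injective ![0, a', b', c', 1, d'])
    (hlt : F tab a b c 1 d < F tab a' b' c' 1 d') :
    condProb (fun w => (G tab w : ℝ) / W) 2 (pos 4) [a, b, c, d] <
      condProb (fun w => (G tab w : ℝ) / W) 2 (pos 4) [a', b', c', d'] := by
  unfold condProb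
  rw [sum4 _ _ _ _ _ hinj, sum4 _ _ _ _ _ hinj']
  have g1 : G tab (word ![0, a, b, c, 1, d] hinj) = F tab a b c 1 d := G_word tab _ hinj rfl
  have g2 : G tab (word ![0, a', b', c', 1, d'] hinj') = F tab a' b' c' 1 d' :=
    G_word tab _ hinj' rfl
  have hden : 0 < ∑ w, if InEvent 2 (pos 4) w then (G tab w : ℝ) / W else 0 := by
    apply Finset.sum_pos'
    · intro w _
      split_ifs
      · exact div_nonneg (Nat.cast_nonneg _) hW.le
      · exact le_rfl
    · refine ⟨word ![0, a', b', c', 1, d'] hinj', Finset.mem_univ _, ?_⟩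
      rw [if_pos ((inEvent_iff 4 (by decide) _).mpr ⟨rfl, rfl⟩), g2]
      exact div_pos (Nat.cast_pos.mpr (by omega)) hW
  apply div_lt_div_of_pos_right _ hden
  show ((G tab (word ![0, a, b, c, 1, d] hinj) : ℕ) : ℝ) / W <
    ((G tab (word ![0, a', b', c', 1, d'] hinj') : ℕ) : ℝ) / W
  rw [g1, g2]
  exact div_lt_div_of_pos_right (Nat.cast_lt.mpr hlt) hW

/-- Comparison of conditional probabilities, second small entry at position `3`. -/
theorem cond3 (tab : List (ℕ × ℕ)) {W : ℝ} (hW : 0 < W) {a b c d a' b' c' d' : Fin 6}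
    (hinj : Function.Injective ![0, a, b, 1, c, d])
    (hinj' : Function.Injective ![0, a', b', 1, c', d'])
    (hlt : F tab a b 1 c d < F tab a' b' 1 c' d') :
    condProb (fun w => (G tab w : ℝ) / W) 2 (pos 3) [a, b, c, d] <
      condProb (fun w => (G tab w : ℝ) / W) 2 (pos 3) [a', b', c', d'] := by
  unfold condProb
  rw [sum3 _ _ _ _ _ hinj, sum3 _ _ _ _ _ hinj']
  have g1 : G tab (word ![0, a, b, 1, c, d] hinj) = F tab a b 1 c d := G_word tab _ hinj rfl
  have g2 : G tab (word ![0, a', b', 1, c', d'] hinj') = F tab a' b' 1 c' d' :=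
    G_word tab _ hinj' rfl
  have hden : 0 < ∑ w, if InEvent 2 (pos 3) w then (G tab w : ℝ) / W else 0 := by
    apply Finset.sum_pos'
    · intro w _
      split_ifs
      · exact div_nonneg (Nat.cast_nonneg _) hW.le
      · exact le_rfl
    · refine ⟨word ![0, a', b', 1, c', d'] hinj', Finset.mem_univ _, ?_⟩
      rw [if_pos ((inEvent_iff 3 (by decide) _).mpr ⟨rfl, rfl⟩), g2]
      exact div_pos (Nat.cast_pos.mpr (by omega)) hW
  apply div_lt_div_of_pos_right _ hden
  show ((G tab (word ![0, a, b, 1, c, d] hinj) : ℕ) : ℝ) / W <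
    ((G tab (word ![0, a', b', 1, c', d'] hinj') : ℕ) : ℝ) / W
  rw [g1, g2]
  exact div_lt_div_of_pos_right (Nat.cast_lt.mpr hlt) hW

/-! ### The two examples -/

/-- Weights of the words, coded by the entries after the entry `0`. -/
def tabMin : List (ℕ × ℕ) :=
  [(1865, 73200), (1870, 1200), (1895, 18900), (1905, 27450), (1930, 36900), (1935, 450),
   (2045, 25620), (2050, 420), (2105, 14710), (2120, 7320), (2140, 4510), (2150, 120),
   (2255, 8490), (2265, 21120), (2285, 1680), (2300, 1890), (2355, 16775), (2360, 2745),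
   (2470, 34290), (2475, 4920), (2500, 9480), (2510, 3690), (2535, 275), (2540, 45),
   (2945, 14640), (2950, 240), (2975, 3780), (2985, 5490), (3010, 7380), (3015, 90),
   (3305, 18300), (3310, 300), (3395, 18350), (3415, 14640), (3430, 3350), (3445, 240),
   (3515, 5100), (3525, 9165), (3575, 3225), (3595, 3780), (3645, 11590), (3655, 5490),
   (3730, 13500), (3735, 1065), (3790, 10725), (3805, 7380), (3825, 190), (3835, 90),
   (4205, 27206), (4210, 446), (4265, 18598), (4280, 11346), (4300, 4838), (4310, 186),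
   (4385, 3904), (4390, 64), (4475, 5582), (4495, 5124), (4510, 742), (4525, 84),
   (4805, 23328), (4820, 15403), (4835, 2457), (4855, 2942), (4940, 20496), (4945, 1464),
   (5020, 9408), (5030, 2143), (5050, 1077), (5065, 902), (5120, 336), (5125, 24),
   (5495, 6562), (5505, 28281), (5525, 1694), (5540, 3117), (5595, 24700), (5600, 5406),
   (5675, 803), (5685, 4389), (5735, 706), (5755, 1698), (5805, 7250), (5815, 4224),
   (5885, 1545), (5900, 3039), (5915, 120), (5935, 336), (6020, 5292), (6025, 378),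
   (6315, 34404), (6320, 8540), (6345, 4026), (6355, 3355), (6380, 7686), (6385, 549),
   (6790, 50602), (6795, 10221), (6820, 16534), (6830, 7857), (6855, 3200), (6860, 546),
   (6970, 8063), (6975, 1749), (7030, 8966), (7045, 6858), (7065, 2050), (7075, 984),
   (7180, 16125), (7190, 8679), (7210, 1740), (7225, 1896), (7280, 10332), (7285, 738),
   (7395, 564), (7400, 140), (7425, 66), (7435, 55), (7460, 126), (7465, 9)]

/-- Weights of the words, coded by the entries after the entry `0`. -/
def tabMax : List (ℕ × ℕ) :=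
  [(1865, 2460160625), (1870, 2005263000), (1895, 1968030000), (1905, 1691442000),
   (1930, 2210753700), (1935, 1378684800), (2045, 238261500), (2050, 194205600),
   (2105, 30264900), (2120, 2497625), (2140, 26300700), (2150, 2035800), (2255, 249441000),
   (2265, 248382900), (2285, 20379600), (2300, 1998000), (2355, 29400425), (2360, 1717200),
   (2470, 294687845), (2475, 214040880), (2500, 24295680), (2510, 2244420),
   (2535, 23964120), (2540, 1399680), (2945, 154852750), (2950, 126219600),
   (2975, 123876000), (2985, 106466400), (3010, 139154040), (3015, 86780160),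
   (3305, 283055775), (3310, 230717160), (3395, 435211040), (3415, 492032125),
   (3430, 366370650), (3445, 401052600), (3515, 248655600), (3525, 226549440),
   (3575, 320843160), (3595, 393606000), (3645, 343821600), (3655, 338288400),
   (3730, 284792640), (3735, 189034560), (3790, 370411560), (3805, 442150740),
   (3825, 280247040), (3835, 275736960), (4205, 1433194200), (4210, 1168188480),
   (4265, 187418970), (4280, 16594300), (4300, 162580680), (4310, 13525920),
   (4385, 17982900), (4390, 14657760), (4475, 36989640), (4495, 47652300), (4510, 30889080),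
   (4525, 38841120), (4805, 1151403060), (4820, 102978255), (4835, 3619230),
   (4855, 6052980), (4940, 621409100), (4945, 499525), (5020, 1005449040), (5030, 84618960),
   (5050, 3206160), (5065, 5260140), (5120, 506507040), (5125, 407160), (5495, 1532524050),
   (5505, 1553998320), (5525, 129989880), (5540, 13633200), (5595, 188954020),
   (5600, 11924280), (5675, 20846100), (5685, 22518540), (5735, 36796110), (5755, 49888200),
   (5805, 44747370), (5815, 49676580), (5885, 763914240), (5900, 80777520), (5915, 2293920),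
   (5935, 4075920), (6020, 497102400), (6025, 399600), (6315, 1145398635), (6320, 73085940),
   (6345, 3918290), (6355, 5880085), (6380, 427239360), (6385, 343440), (6790, 1822429786),
   (6795, 1347366744), (6820, 155793384), (6830, 15402846), (6855, 155223606),
   (6860, 9789984), (6970, 25377519), (6975, 19922976), (7030, 44846906), (7045, 58937569),
   (7065, 38828304), (7075, 42808176), (7180, 915668496), (7190, 91326204), (7210, 2796984),
   (7225, 4859136), (7280, 558411696), (7285, 448884), (7395, 933607944), (7400, 59571936),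
   (7425, 3193776), (7435, 4792824), (7460, 348240384), (7465, 279936)]

/-- Rates of the first example. -/
def RMin : Fin 6 → ℕ := ![3, 3, 3, 1, 30, 1]

/-- Rates of the second example. -/
def RMax : Fin 6 → ℕ := ![36, 36, 216, 6, 1, 1]

theorem allBal_min : AllBal tabMin RMin := by decide +kernel

theorem allBal_max : AllBal tabMax RMax := by decide +kernel

theorem pos_inj (q : Fin 6) : Function.Injective (pos q) := (swap 1 q).injective

/-- The counterexample for the minimum. -/
theorem min_fails : ∃ t : Fin 6 → ℝ, (∀ i, 0 < t i) ∧ ∃ π, IsStationary t π ∧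
    (∀ π', IsStationary t π' → π' = π) ∧
    ∃ e : Fin 6 → Fin 6, Function.Injective e ∧ ¬ MinAtDescending π 2 e := by
  obtain ⟨W, hW, ht, hst⟩ := stationary_of_table allBal_min (by decide) (by decide +kernel)
    (fun i => ((RMin i : ℕ) : ℝ)⁻¹) (fun _ => rfl)
  refine ⟨_, ht, _, hst, fun π' h' => unique_stationary ht hst h', pos 4, pos_inj 4, ?_⟩
  rintro ⟨σ, hσ, hmin⟩
  have h := hmin [5, 4, 2, 3] (by rw [ascending_six]; decide)
  rw [ascending_six] at hσ
  have hσ' : σ ~r [5, 4, 3, 2] := hσ
  rcases rot_cases hσ' with rfl | rfl | rfl | rfl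
  · exact absurd (cond4 tabMin hW (a := 5) (b := 4) (c := 2) (d := 3) (a' := 5) (b' := 4)
      (c' := 3) (d' := 2) (by decide) (by decide) (by decide +kernel)) (not_lt.mpr h)
  · exact absurd (cond4 tabMin hW (a := 5) (b := 4) (c := 2) (d := 3) (a' := 4) (b' := 3)
      (c' := 2) (d' := 5) (by decide) (by decide) (by decide +kernel)) (not_lt.mpr h)
  · exact absurd (cond4 tabMin hW (a := 5) (b := 4) (c := 2) (d := 3) (a' := 3) (b' := 2)
      (c' := 5) (d' := 4) (by decide) (by decide) (by decide +kernel)) (not_lt.mpr h)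
  · exact absurd (cond4 tabMin hW (a := 5) (b := 4) (c := 2) (d := 3) (a' := 2) (b' := 5)
      (c' := 4) (d' := 3) (by decide) (by decide) (by decide +kernel)) (not_lt.mpr h)

/-- The counterexample for the maximum. -/
theorem max_fails : ∃ t : Fin 6 → ℝ, (∀ i, 0 < t i) ∧ ∃ π, IsStationary t π ∧
    (∀ π', IsStationary t π' → π' = π) ∧
    ∃ e : Fin 6 → Fin 6, Function.Injective e ∧ ¬ MaxAtAscending π 2 e := by
  obtain ⟨W, hW, ht, hst⟩ := stationary_of_table allBal_max (by decide) (by decide +kernel)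
    (fun i => ((RMax i : ℕ) : ℝ)⁻¹) (fun _ => rfl)
  refine ⟨_, ht, _, hst, fun π' h' => unique_stationary ht hst h', pos 3, pos_inj 3, ?_⟩
  rintro ⟨σ, hσ, hmax⟩
  have h := hmax [3, 4, 2, 5] (by rw [ascending_six]; decide)
  rw [ascending_six] at hσ
  rcases rot_cases hσ with rfl | rfl | rfl | rfl
  · exact absurd (cond3 tabMax hW (a' := 3) (b' := 4) (c' := 2) (d' := 5) (a := 2) (b := 3)
      (c := 4) (d := 5) (by decide) (by decide) (by decide +kernel)) (not_lt.mpr h)
  · exact absurd (cond3 tabMax hW (a' := 3) (b' := 4) (c' := 2) (d' := 5) (a := 3) (b := 4)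
      (c := 5) (d := 2) (by decide) (by decide) (by decide +kernel)) (not_lt.mpr h)
  · exact absurd (cond3 tabMax hW (a' := 3) (b' := 4) (c' := 2) (d' := 5) (a := 4) (b := 5)
      (c := 2) (d := 3) (by decide) (by decide) (by decide +kernel)) (not_lt.mpr h)
  · exact absurd (cond3 tabMax hW (a' := 3) (b' := 4) (c' := 2) (d' := 5) (a := 5) (b := 2)
      (c := 3) (d := 4) (by decide) (by decide) (by decide +kernel)) (not_lt.mpr h)

/-- Both halves of the assertion fail for `n = 6`, `k = 2`: for suitable positive inverse rates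
(for which the stationary distribution exists and is unique) and a suitable event `E`, the least
probable arrangement of the four large entries is not cyclically descending; and for suitable
other inverse rates and event, the most probable arrangement is not cyclically ascending. -/
theorem result :
    (∃ t : Fin 6 → ℝ, (∀ i, 0 < t i) ∧ ∃ π, IsStationary t π ∧
      (∀ π', IsStationary t π' → π' = π) ∧
      ∃ e : Fin 6 → Fin 6, Function.Injective e ∧ ¬ MinAtDescending π 2 e) ∧
    (∃ t : Fin 6 → ℝ, (∀ i, 0 < t i) ∧ ∃ π, IsStationary t π ∧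
      (∀ π', IsStationary t π' → π' = π) ∧
      ∃ e : Fin 6 → Fin 6, Function.Injective e ∧ ¬ MaxAtAscending π 2 e) :=
  ⟨min_fails, max_fails⟩

end Pool.Agent.Results.MP_01b7fc_pr.OrderFails
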